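import Pool.Agent.W650.FlAll

/-!
# Fliess's conjecture on commutative context-free languages is false from four letters on

Fliess conjectured in 1970 that the commutative closure of a context-free language is context-free
as soon as all its sections by `a_{σ 1}^* ⋯ a_{σ n}^*` are context-free. The characterisation of the
context-free commutative closures suggested by this conjecture is wrong for every alphabet with at
least four letters: the commutative closure of the context-free language of the words
`a₁^{x₁} a₂^{x₂} a₃^{x₃} a₄^{x₄}` with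

`(x₂ ≤ x₃ ∧ x₃ + x₄ ≤ x₁ + x₂) ∨ (x₄ ≤ 2 x₂ ≤ 2 x₃ + x₄) ∨ (x₃ ≤ 2 x₂ ≤ 2 x₄ + x₃)`

is not context-free, while all its sections are.
-/

set_option autoImplicit false

namespace Pool.Agent.Results.MP_434a84_lc.FliessConjectureFails

open Pool.Agent.W650.Fl

/-- The commutative closure of a language: all rearrangements of its words. -/
def comm {T : Type} (L : Language T) : Language T := {w | ∃ v ∈ L, w.Perm v}

/-- The language `a_{σ 1}^* a_{σ 2}^* ⋯ a_{σ k}^*` over the letters `a_1, …, a_k`. -/
def blocks {k : ℕ} (σ : Equiv.Perm (Fin k)) : Language (Fin k) :=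
  {w | ∃ e : Fin k → ℕ, w = (List.finRange k).flatMap fun i => List.replicate (e i) (σ i)}

/-- For every alphabet with at least four letters there is a context-free language
`L ⊆ a_1^* ⋯ a_k^*` whose commutative closure is not context-free although all its sections by
`a_{σ 1}^* ⋯ a_{σ k}^*` are context-free. -/
theorem result (k : ℕ) (hk : 4 ≤ k) :
    ∃ L : Language (Fin k), L.IsContextFree ∧ L ≤ blocks (Equiv.refl (Fin k)) ∧
      (∀ σ : Equiv.Perm (Fin k), (comm L ⊓ blocks σ).IsContextFree) ∧
      ¬ (comm L).IsContextFree ∧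
      ∀ w : List (Fin k), w ∈ comm L ↔ (∀ x ∈ w, x.val < 4) ∧
        ∃ x : Fin 4 → ℕ, (∀ i : Fin 4, x i = w.count (Fin.castLE hk i)) ∧
          ((x 1 ≤ x 2 ∧ x 2 + x 3 ≤ x 0 + x 1) ∨
            (x 3 ≤ 2 * x 1 ∧ 2 * x 1 ≤ 2 * x 2 + x 3) ∨
            (x 2 ≤ 2 * x 1 ∧ 2 * x 1 ≤ 2 * x 3 + x 2)) := by
  have hcomm : comm ({w | w ∈ LK hk ∧ w.Pairwise (fun x y => x ≤ y)} : Language (Fin k)) =
      LK hk := by
    ext w
    constructor
    · rintro ⟨v, ⟨hv, -⟩, hp⟩
      exact LK_perm hk v w hp.symm hv
    · intro hw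
      refine ⟨w.mergeSort (fun x y => decide (x ≤ y)), ⟨?_, ?_⟩, ?_⟩
      · exact LK_perm hk w _ (List.mergeSort_perm w _).symm hw
      · have := List.pairwise_mergeSort (le := fun x y : Fin k => decide (x ≤ y))
          (by intro a b c h1 h2; simp only [decide_eq_true_eq] at *; exact h1.trans h2)
          (by intro a b; simpa using le_total a b) w
        simpa using this
      · exact (List.mergeSort_perm w _).symm
  refine ⟨{w | w ∈ LK hk ∧ w.Pairwise (fun x y => x ≤ y)}, ?_, ?_, ?_, ?_, ?_⟩
  · exact sections_LK hk id Function.injective_id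
  · rintro w ⟨-, hw⟩
    exact (sorted_iff (Equiv.refl (Fin k)) w).2 (by simpa using hw)
  · intro σ
    rw [hcomm]
    have h := sections_LK hk σ.symm σ.symm.injective
    have e : (LK hk ⊓ blocks σ : Language (Fin k)) =
        ({w | w ∈ LK hk ∧ w.Pairwise (fun x y => σ.symm x ≤ σ.symm y)} : Language (Fin k)) := by
      ext w
      change w ∈ LK hk ∧ (∃ e : Fin k → ℕ, w = _) ↔ w ∈ LK hk ∧ _
      rw [sorted_iff]
    rw [e]
    exact h
  · rw [hcomm]
    exact LK_not_cf hk
  · intro w
    rw [hcomm, mem_LK]
    refine and_congr_right fun _ => ?_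
    unfold InM Pool.Agent.W650.Fl.em
    constructor
    · intro h
      exact ⟨fun i => w.count (Fin.castLE hk i), fun _ => rfl, h⟩
    · rintro ⟨x, hx, h⟩
      rw [hx 0, hx 1, hx 2, hx 3] at h
      exact h

end Pool.Agent.Results.MP_434a84_lc.FliessConjectureFails
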